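import Mathlib

set_option autoImplicit false

namespace Pool.Agent.V1162.T3

noncomputable def gam : ℝ :=
  sSup ((fun α : ℝ => α ^ 3 * (1 - α) ^ 3 + 3 * α ^ 4 * (1 - α) ^ 2) '' Set.Icc (0 : ℝ) 1)

lemma le_gam {x : ℝ} (h0 : 0 ≤ x) (h1 : x ≤ 1) :
    x ^ 3 * (1 - x) ^ 3 + 3 * x ^ 4 * (1 - x) ^ 2 ≤ gam := by
  apply le_csSup
  · exact (isCompact_Icc.image (by fun_prop)).bddAbove
  · exact ⟨x, ⟨h0, h1⟩, rfl⟩

lemma gam_ge : (774/10000 : ℝ) ≤ gam := by
  have := le_gam (x := 16/25) (by norm_num) (by norm_num)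
  norm_num at this ⊢
  linarith

lemma gam_nonneg : 0 ≤ gam := by have := gam_ge; linarith

/-- one corner -/
lemma corner {x y : ℝ} (hx : 0 ≤ x) (hy : 0 ≤ y) :
    y^3 * (x^2 * (x + 3*y)) ≤ gam * (x+y)^6 := by
  rcases eq_or_lt_of_le (add_nonneg hx hy) with h | h
  · have hx0 : x = 0 := by linarith
    have hy0 : y = 0 := by linarith
    simp [hx0, hy0]
  · have h1 := le_gam (x := y/(x+y)) (by positivity) (by rw [div_le_one h]; linarith)
    have h2 : (y/(x+y)) ^ 3 * (1 - y/(x+y)) ^ 3 + 3 * (y/(x+y)) ^ 4 * (1 - y/(x+y)) ^ 2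
        = (y^3 * (x^2 * (x + 3*y))) / (x+y)^6 := by
      field_simp
      ring
    rw [h2, div_le_iff₀ (by positivity)] at h1
    exact h1

lemma hasDerivAt_affine (c d x : ℝ) : HasDerivAt (fun t : ℝ => c + d * t) d x := by
  simpa using ((hasDerivAt_id x).const_mul d).const_add c

/-- three segments, normalised -/
lemma psi3_simplex {v a : ℝ} (hv : 0 ≤ v) (ha : 0 ≤ a) (hva : v + a ≤ 1) :
    a^2*(3-3*v-2*a)*((1-a)^3+3*a*v^2) ≤ gam := by
  set T : Set (ℝ × ℝ) := {p | 0 ≤ p.1 ∧ 0 ≤ p.2 ∧ p.1 + p.2 ≤ 1} with hT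
  have hTc : IsCompact T := by
    apply IsCompact.of_isClosed_subset (isCompact_Icc.prod isCompact_Icc :
      IsCompact (Set.Icc (0:ℝ) 1 ×ˢ Set.Icc (0:ℝ) 1))
    · apply IsClosed.inter
      · exact isClosed_le continuous_const continuous_fst
      · apply IsClosed.inter
        · exact isClosed_le continuous_const continuous_snd
        · exact isClosed_le (continuous_fst.add continuous_snd) continuous_const
    · rintro ⟨x, y⟩ ⟨h1, h2, h3⟩
      simp only at h1 h2 h3
      exact ⟨⟨h1, by simp only; linarith⟩, ⟨h2, by simp only; linarith⟩⟩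
  set f : ℝ × ℝ → ℝ := fun p => p.2^2*(3-3*p.1-2*p.2)*((1-p.2)^3+3*p.2*p.1^2) with hf
  have hfc : ContinuousOn f T := by
    apply Continuous.continuousOn
    fun_prop
  obtain ⟨p, hpT, hp⟩ := hTc.exists_isMaxOn ⟨(v, a), hv, ha, hva⟩ hfc
  have key : f p ≤ gam := by
    obtain ⟨v0, a0⟩ := p
    obtain ⟨h1, h2, h3⟩ := hpT
    simp only at h1 h2 h3
    rcases eq_or_lt_of_le h1 with e1 | l1
    · have := corner (x := a0) (y := 1 - a0) h2 (by linarith)
      simp only [hf]
      rw [← e1]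
      have e : a0 + (1 - a0) = 1 := by ring
      rw [e] at this
      calc _ = (1-a0)^3 * (a0^2*(a0+3*(1-a0))) := by ring
        _ ≤ _ := this
        _ = gam := by ring
    rcases eq_or_lt_of_le h2 with e2 | l2
    · simp only [hf]
      rw [← e2]
      have := gam_nonneg
      simpa using this
    rcases eq_or_lt_of_le h3 with e3 | l3
    · have := corner (x := 1 - a0) (y := a0) (by linarith) h2
      simp only [hf]
      have e4 : v0 = 1 - a0 := by linarith
      rw [e4]
      have e : (1 - a0) + a0 = 1 := by ring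
      rw [e] at this
      calc _ = a0^3 * ((1-a0)^2*((1-a0)+3*a0)) := by ring
        _ ≤ _ := this
        _ = gam := by ring
    -- interior critical point
    have hmax : ∀ x y : ℝ, 0 ≤ x → 0 ≤ y → x + y ≤ 1 → f (x, y) ≤ f (v0, a0) := by
      intro x y hx hy hxy
      exact hp (show (x, y) ∈ T from ⟨hx, hy, hxy⟩)
    -- derivative in v
    have d1 : HasDerivAt (fun x : ℝ => f (x, a0))
        (a0^2 * (-3) * ((1-a0)^3+3*a0*v0^2) + a0^2*(3-3*v0-2*a0)*(3*a0*(2*v0))) v0 := by
      have h1 : HasDerivAt (fun x : ℝ => a0^2*(3-3*x-2*a0)) (a0^2 * (-3)) v0 := by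
        have e : (fun x : ℝ => a0^2*(3-3*x-2*a0))
            = fun x : ℝ => a0^2*(3-2*a0) + (a0^2 * (-3)) * x := by
          funext x; ring
        rw [e]
        exact hasDerivAt_affine _ _ _
      have h2 : HasDerivAt (fun x : ℝ => (1-a0)^3+3*a0*x^2) (3*a0*(2*v0)) v0 := by
        have g : HasDerivAt (fun y : ℝ => y^2) (2*v0) v0 := by
          simpa using hasDerivAt_pow 2 v0
        exact (g.const_mul (3*a0)).const_add ((1-a0)^3)
      exact h1.mul h2
    have d2 : HasDerivAt (fun y : ℝ => f (v0, y))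
        ((2*a0*(3-3*v0-2*a0) + a0^2*(-2)) * ((1-a0)^3+3*a0*v0^2)
          + a0^2*(3-3*v0-2*a0)*(-3*(1-a0)^2+3*v0^2)) a0 := by
      have h1 : HasDerivAt (fun y : ℝ => y^2*(3-3*v0-2*y)) (2*a0*(3-3*v0-2*a0) + a0^2*(-2)) a0 := by
        have g1 : HasDerivAt (fun y : ℝ => y^2) (2*a0) a0 := by
          simpa using hasDerivAt_pow 2 a0
        have g2 : HasDerivAt (fun y : ℝ => 3-3*v0-2*y) (-2) a0 := by
          have e : (fun y : ℝ => 3-3*v0-2*y) = fun y : ℝ => (3-3*v0) + (-2) * y := by
            funext x; ring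
          rw [e]
          exact hasDerivAt_affine _ _ _
        exact g1.mul g2
      have h2 : HasDerivAt (fun y : ℝ => (1-y)^3+3*y*v0^2) (-3*(1-a0)^2+3*v0^2) a0 := by
        have g1 : HasDerivAt (fun y : ℝ => (1-y)^3) (-3*(1-a0)^2) a0 := by
          have g0 : HasDerivAt (fun y : ℝ => 1 - y) (-1) a0 := by
            simpa using (hasDerivAt_id a0).const_sub 1
          have := g0.pow 3
          have e : ((3:ℕ):ℝ) * (1 - a0)^(3-1) * (-1) = -3*(1-a0)^2 := by
            norm_num
          rw [e] at this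
          exact this
        have g2 : HasDerivAt (fun y : ℝ => 3*y*v0^2) (3*v0^2) a0 := by
          have e : (fun y : ℝ => 3*y*v0^2) = fun y : ℝ => 0 + (3*v0^2) * y := by
            funext x; ring
          rw [e]
          exact hasDerivAt_affine _ _ _
        exact g1.add g2
      exact h1.mul h2
    have m1 : IsLocalMax (fun x : ℝ => f (x, a0)) v0 := by
      have : ∀ᶠ x in nhds v0, 0 < x ∧ x + a0 < 1 := by
        apply Filter.Eventually.and
        · exact eventually_gt_nhds l1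
        · have : ∀ᶠ x in nhds v0, x < 1 - a0 := eventually_lt_nhds (by linarith)
          filter_upwards [this] with x hx
          linarith
      filter_upwards [this] with x hx
      exact hmax x a0 hx.1.le h2 hx.2.le
    have m2 : IsLocalMax (fun y : ℝ => f (v0, y)) a0 := by
      have : ∀ᶠ x in nhds a0, 0 < x ∧ v0 + x < 1 := by
        apply Filter.Eventually.and
        · exact eventually_gt_nhds l2
        · have : ∀ᶠ x in nhds a0, x < 1 - v0 := eventually_lt_nhds (by linarith)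
          filter_upwards [this] with x hx
          linarith
      filter_upwards [this] with x hx
      exact hmax v0 x h1 hx.1.le hx.2.le
    have q1 := m1.hasDerivAt_eq_zero d1
    have q2 := m2.hasDerivAt_eq_zero d2
    -- B = 2 a v K
    set K := 3-3*v0-2*a0 with hK
    set B := (1-a0)^3+3*a0*v0^2 with hB
    have hKpos : 0 < K := by rw [hK]; nlinarith
    have r1 : B = 2*a0*v0*K := by
      have : a0^2 * 3 * (B - 2*a0*v0*K) = 0 := by linarith
      have h4 : a0^2*3 ≠ 0 := by positivity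
      have := (mul_eq_zero.mp this).resolve_left h4
      linarith
    have r2 : 2*B = a0*K*(1-a0+v0) := by
      have : (3*a0*(1-v0-a0)) * (2*B - a0*K*(1-a0+v0)) = 0 := by
        have e : (2*a0*K + a0^2*(-2)) = 6*a0*(1-v0-a0) := by rw [hK]; ring
        rw [e] at q2
        have e2 : a0^2*K*(-3*(1-a0)^2+3*v0^2) = -(3*a0*(1-v0-a0))*(a0*K*(1-a0+v0)) := by ring
        rw [e2] at q2
        linarith
      have h4 : (3*a0*(1-v0-a0)) ≠ 0 := by
        have : 0 < 1 - v0 - a0 := by linarith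
        positivity
      have := (mul_eq_zero.mp this).resolve_left h4
      linarith
    have r3 : 1 - a0 = 3*v0 := by
      have : a0*K*(3*v0 - (1-a0)) = 0 := by
        rw [r1] at r2
        linarith
      have h4 : a0*K ≠ 0 := by positivity
      have := (mul_eq_zero.mp this).resolve_left h4
      linarith
    have ha0 : a0 = 1 - 3*v0 := by linarith
    have r4 : 36*v0^2 + 3*v0 - 2 = 0 := by
      rw [hB, hK, ha0] at r1
      have : 3*v0^2 * (36*v0^2 + 3*v0 - 2) = 0 := by nlinarith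
      have h4 : 3*v0^2 ≠ 0 := by positivity
      exact (mul_eq_zero.mp this).resolve_left h4
    have b1 : 197/1000 ≤ v0 := by nlinarith
    have b2 : v0 ≤ 198/1000 := by nlinarith
    have hfv : f (v0, a0) = a0^2*K*B := rfl
    rw [hfv, hK, hB, ha0]
    have c1 : 1 - 3*v0 ≤ 409/1000 := by linarith
    have c2 : 0 ≤ 1 - 3*v0 := by linarith
    have c3 : (1-3*v0)^2 ≤ (409/1000)^2 := by gcongr
    have c4 : 3-3*v0-2*(1-3*v0) ≤ 1594/1000 := by linarith
    have c5 : (1-(1-3*v0))^3+3*(1-3*v0)*v0^2 ≤ (594/1000)^3 + 3*(409/1000)*(198/1000)^2 := by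
      have : 1-(1-3*v0) = 3*v0 := by ring
      rw [this]
      have h3 : 3*v0 ≤ 594/1000 := by linarith
      gcongr
    have c6 : 0 ≤ (1-(1-3*v0))^3+3*(1-3*v0)*v0^2 := by
      have : 1-(1-3*v0) = 3*v0 := by ring
      rw [this]
      positivity
    have c7 : 0 ≤ 3-3*v0-2*(1-3*v0) := by linarith
    calc (1-3*v0)^2*(3-3*v0-2*(1-3*v0))*((1-(1-3*v0))^3+3*(1-3*v0)*v0^2)
        ≤ (409/1000)^2 * (1594/1000) * ((594/1000)^3 + 3*(409/1000)*(198/1000)^2) := by
          gcongr
      _ ≤ 774/10000 := by norm_num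
      _ ≤ gam := gam_ge
  exact (hp (show (v, a) ∈ T from ⟨hv, ha, hva⟩)).trans key

/-- three segments -/
lemma psi3 {v a w : ℝ} (hv : 0 ≤ v) (ha : 0 ≤ a) (hw : 0 ≤ w) :
    (a^3 + 3*a^2*w) * ((v+w)^3 + 3*a*v^2) ≤ gam * (v+a+w)^6 := by
  rcases eq_or_lt_of_le (add_nonneg (add_nonneg hv ha) hw) with h | h
  · have hv0 : v = 0 := by linarith
    have ha0 : a = 0 := by linarith
    have hw0 : w = 0 := by linarith
    simp [hv0, ha0, hw0]
  · set s := v + a + w with hs
    have h1 := psi3_simplex (v := v/s) (a := a/s) (by positivity) (by positivity)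
      (by rw [← add_div, div_le_one h]; linarith)
    have h2 : (a/s)^2*(3-3*(v/s)-2*(a/s))*((1-a/s)^3+3*(a/s)*(v/s)^2)
        = ((a^3 + 3*a^2*w) * ((v+w)^3 + 3*a*v^2)) / s^6 := by
      have hw' : w = s - v - a := by rw [hs]; ring
      rw [hw']
      field_simp
      ring
    rw [h2, div_le_iff₀ (by positivity)] at h1
    exact h1

end Pool.Agent.V1162.T3
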