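import Mathlib
import Pool.Agent.V1162.T3.Cont

set_option autoImplicit false

namespace Pool.Agent.V1162.T3

lemma phi4_case {a b u r : ℝ} (ha : 0 < a) (hb : 0 < b) (hu : 0 < u) (hua : u ≤ a)
    (hr : 0 ≤ r) (hrb : r ≤ b)
    (h : a^3*(b+r) < u*(2*a^2*b - u^2*(b-r))) : b^3 ≤ (b-r)*(b+r)^2 := by
  have h1 : 3*r < b := by
    by_contra hc
    push Not at hc
    have e : a^3*(b+r) - u*(2*a^2*b - u^2*(b-r))
        = (a-u)*(b*(a^2-a*u-u^2) + r*(a^2+a*u+u^2)) := by ring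
    have h2 : 0 ≤ (a-u)*(b*(a^2-a*u-u^2) + r*(a^2+a*u+u^2)) := by
      apply mul_nonneg (by linarith)
      have h3 : b*(a^2+a*u+u^2) ≤ 3*r*(a^2+a*u+u^2) := by gcongr
      have h4 : 0 ≤ b*(4*a^2-2*a*u-2*u^2) := by
        apply mul_nonneg hb.le
        nlinarith
      nlinarith
    linarith
  have e : (b-r)*(b+r)^2 - b^3 = r*(b^2 - b*r - r^2) := by ring
  have h2 : 0 ≤ r*(b^2-b*r-r^2) := by
    apply mul_nonneg hr
    nlinarith
  linarith

lemma phi4 {r1 u1 r2 u2 : ℝ} (hr1 : 0 ≤ r1) (hu1 : 0 ≤ u1) (hr2 : 0 ≤ r2) (hu2 : 0 ≤ u2) :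
    ((u1+u2)^3 + 3*(u1^2*r2)) * ((r1+r2)^3 + 3*(u1*r1^2 + u2*(r1+r2)^2))
      ≤ gam * (r1+u1+r2+u2)^6 := by
  rcases eq_or_lt_of_le hu1 with h0 | hu1'
  · have := psi3 (v := r1+r2) (a := u2) (w := 0) (by positivity) hu2 le_rfl
    rw [← h0]
    have e : r1 + 0 + r2 + u2 = r1 + r2 + u2 + 0 := by ring
    rw [e]
    refine le_trans (le_of_eq ?_) this
    ring
  rcases eq_or_lt_of_le hr2 with h0 | hr2'
  · have := psi3 (v := r1) (a := u1+u2) (w := 0) hr1 (by positivity) le_rfl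
    rw [← h0]
    have e : r1 + u1 + 0 + u2 = r1 + (u1+u2) + 0 := by ring
    rw [e]
    refine le_trans (le_of_eq ?_) this
    ring
  set a := u1+u2 with ha
  set b := r1+r2 with hb
  have hapos : 0 < a := by positivity
  have hbpos : 0 < b := by positivity
  have hA : 0 ≤ a^3 + 3*(u1^2*r2) := by positivity
  have esum : r1+u1+r2+u2 = b + a := by rw [ha, hb]; ring
  rw [esum]
  by_cases hc : u1*(2*a^2*b - u1^2*(b-r1)) ≤ a^3*(b+r1)
  · -- RUR
    set w := u1^2*r2/a^2 with hw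
    have hw0 : 0 ≤ w := by positivity
    have hwr : w ≤ r2 := by
      rw [hw, div_le_iff₀ (by positivity)]
      have : u1^2 ≤ a^2 := by
        have : u1 ≤ a := by linarith
        gcongr
      nlinarith
    have haw : a^2*w = u1^2*r2 := by rw [hw]; field_simp
    have h1 := psi3 (v := b-w) (a := a) (w := w) (by linarith) hapos.le hw0
    have e1 : b - w + a + w = b + a := by ring
    have e2 : b - w + w = b := by ring
    rw [e1, e2] at h1
    have e3 : a^3 + 3*a^2*w = a^3 + 3*(u1^2*r2) := by rw [← haw]; ring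
    rw [e3] at h1
    refine le_trans ?_ h1
    apply mul_le_mul_of_nonneg_left _ hA
    -- B3 ≤ B3'
    have k1 : a*w*(2*b-w) ≤ u1*r2*(b+r1) := by
      have k2 : a^3*(a*w*(2*b-w)) ≤ a^3*(u1*r2*(b+r1)) := by
        have k3 : a^3*(a*w*(2*b-w)) = u1^2*r2*(2*a^2*b - u1^2*r2) := by
          calc a^3*(a*w*(2*b-w)) = (a^2*w)*(2*a^2*b - a^2*w) := by ring
            _ = _ := by rw [haw]
        rw [k3]
        have k4 : b - r1 = r2 := by rw [hb]; ring
        rw [k4] at hc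
        have k5 : u1*r2*(u1*(2*a^2*b - u1^2*r2)) ≤ u1*r2*(a^3*(b+r1)) := by gcongr
        nlinarith
      exact le_of_mul_le_mul_left k2 (by positivity)
    have k6 : u2 = a - u1 := by rw [ha]; ring
    have k7 : r2 = b - r1 := by rw [hb]; ring
    rw [k6]
    rw [k7] at k1
    nlinarith
  · push Not at hc
    have k := phi4_case hapos hbpos hu1' (by linarith) hr1 (by linarith) hc
    set h := u1*Real.sqrt (r2/b) with hh
    have hsq : (Real.sqrt (r2/b))^2 = r2/b := Real.sq_sqrt (by positivity)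
    have hs1 : Real.sqrt (r2/b) ≤ 1 := by
      rw [← Real.sqrt_one]
      apply Real.sqrt_le_sqrt
      rw [div_le_one hbpos]; linarith
    have hh0 : 0 ≤ h := by positivity
    have hhu : h ≤ u1 := by
      rw [hh]
      calc u1*Real.sqrt (r2/b) ≤ u1 * 1 := by gcongr
        _ = u1 := by ring
    have hbh : b*h^2 = u1^2*r2 := by
      rw [hh, mul_pow, hsq]
      field_simp
    have h1 := psi3 (v := h) (a := b) (w := a - h) hh0 hbpos.le (by linarith)
    have e1 : h + b + (a - h) = b + a := by ring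
    have e2 : h + (a - h) = a := by ring
    rw [e1, e2] at h1
    have e3 : a^3 + 3*b*h^2 = a^3 + 3*(u1^2*r2) := by rw [← hbh]; ring
    rw [e3, mul_comm] at h1
    refine le_trans ?_ h1
    apply mul_le_mul_of_nonneg_left _ hA
    have k7 : b - r1 = r2 := by rw [hb]; ring
    rw [k7] at k
    have k1 : h*b^2 ≤ u1*r2*(b+r1) := by
      apply le_of_sq_le_sq _ (by positivity)
      calc (h*b^2)^2 = (b*h^2)*b^3 := by ring
        _ = u1^2*r2*b^3 := by rw [hbh]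
        _ ≤ u1^2*r2*(r2*(b+r1)^2) := by gcongr
        _ = (u1*r2*(b+r1))^2 := by ring
    have k6 : u2 = a - u1 := by rw [ha]; ring
    rw [k6]
    have k8 : r2 = b - r1 := by rw [hb]; ring
    rw [k8] at k1
    nlinarith

lemma phi5 {r1 u1 r2 u2 r3 : ℝ} (hr1 : 0 ≤ r1) (hu1 : 0 ≤ u1) (hr2 : 0 ≤ r2) (hu2 : 0 ≤ u2)
    (hr3 : 0 ≤ r3) :
    ((u1+u2)^3 + 3*(u1^2*r2 + (u1+u2)^2*r3)) *
      ((r1+r2+r3)^3 + 3*(u1*r1^2 + u2*(r1+r2)^2))
      ≤ gam * ((u1+u2)+(r1+r2+r3))^6 := by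
  rcases eq_or_lt_of_le hu1 with h0 | hu1'
  · have := psi3 (v := r1+r2) (a := u2) (w := r3) (by positivity) hu2 hr3
    rw [← h0]
    have e : (0 + u2) + (r1+r2+r3) = r1 + r2 + u2 + r3 := by ring
    rw [e]
    refine le_trans (le_of_eq ?_) this
    ring
  rcases eq_or_lt_of_le hu2 with h0 | hu2'
  · have := psi3 (v := r1) (a := u1) (w := r2 + r3) hr1 hu1 (by positivity)
    rw [← h0]
    have e : (u1 + 0) + (r1+r2+r3) = r1 + u1 + (r2 + r3) := by ring
    rw [e]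
    refine le_trans (le_of_eq ?_) this
    ring
  set a := u1+u2 with ha
  have hapos : 0 < a := by positivity
  set δ := a^2 - u1^2 with hδ
  have hδpos : 0 < δ := by rw [hδ, ha]; nlinarith
  -- general line statement
  have line : ∀ s : ℝ, 0 ≤ s*(-2*u1*r1*δ + 2*u2*(r1+r2)*u1^2) →
      ((r1+r2+r3)^3 + 3*(u1*r1^2 + u2*(r1+r2)^2)) ≤
      ((r1+r2+r3)^3 + 3*(u1*(r1-δ*s)^2 + u2*((r1-δ*s)+(r2+a^2*s))^2)) := by
    intro s hs
    have e : (r1-δ*s)+(r2+a^2*s) = (r1+r2) + u1^2*s := by rw [hδ]; ring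
    rw [e]
    have : 0 ≤ u1*(δ*s)^2 + u2*(u1^2*s)^2 := by positivity
    nlinarith
  have hA : 0 ≤ a^3 + 3*(u1^2*r2 + a^2*r3) := by positivity
  have eA : ∀ s : ℝ, a^3 + 3*(u1^2*(r2+a^2*s) + a^2*(r3-u1^2*s)) = a^3 + 3*(u1^2*r2 + a^2*r3) := by
    intro s; ring
  have eb : ∀ s : ℝ, (r1-δ*s) + (r2+a^2*s) + (r3-u1^2*s) = r1+r2+r3 := by
    intro s; rw [hδ]; ring
  rcases le_total 0 (-2*u1*r1*δ + 2*u2*(r1+r2)*u1^2) with hsl | hsl
  · rcases le_total (r1/δ) (r3/u1^2) with hm | hm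
    · -- s = r1/δ
      set s := r1/δ with hs
      have hs0 : 0 ≤ s := by positivity
      have hr1s : r1 - δ*s = 0 := by rw [hs]; field_simp; ring
      have hr3s : 0 ≤ r3 - u1^2*s := by
        rw [le_div_iff₀ (by positivity)] at hm
        linarith
      have h1 := line s (mul_nonneg hs0 hsl)
      have h2 := eA s
      have h3 := eb s
      have h4 := phi4 (r1 := u1) (u1 := r2+a^2*s) (r2 := u2) (u2 := r3-u1^2*s) hu1 (by positivity)
        hu2 hr3s
      rw [hr1s] at h1 h3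
      have e1 : u1 + (r2+a^2*s) + u2 + (r3-u1^2*s) = a + (r1+r2+r3) := by rw [← h3, ha]; ring
      rw [e1] at h4
      have e2 : (r2+a^2*s) + (r3-u1^2*s) = r1+r2+r3 := by rw [← h3]; ring
      rw [e2] at h4
      calc _ ≤ (a^3 + 3*(u1^2*r2 + a^2*r3)) *
            ((r1+r2+r3)^3 + 3*(u1*0^2 + u2*(0+(r2+a^2*s))^2)) :=
            mul_le_mul_of_nonneg_left h1 hA
        _ = ((r1+r2+r3)^3 + 3*((r2+a^2*s)^2*u2)) * ((u1+u2)^3 + 3*((r2+a^2*s)*u1^2 + (r3-u1^2*s)*(u1+u2)^2)) := by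
            rw [← h2, ← ha]; ring
        _ ≤ _ := h4
    · set s := r3/u1^2 with hs
      have hs0 : 0 ≤ s := by positivity
      have hr3s : r3 - u1^2*s = 0 := by rw [hs]; field_simp; ring
      have hr1s : 0 ≤ r1 - δ*s := by
        rw [le_div_iff₀ (by positivity)] at hm
        linarith
      have h1 := line s (mul_nonneg hs0 hsl)
      have h2 := eA s
      have h3 := eb s
      have h4 := phi4 (r1 := r1-δ*s) (u1 := u1) (r2 := r2+a^2*s) (u2 := u2) hr1s hu1 (by positivity)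
        hu2
      rw [hr3s] at h2 h3
      have e1 : (r1-δ*s) + u1 + (r2+a^2*s) + u2 = a + (r1+r2+r3) := by rw [← h3, ha]; ring
      rw [e1] at h4
      have e2 : (r1-δ*s) + (r2+a^2*s) = r1+r2+r3 := by rw [← h3]; ring
      rw [e2] at h4 h1
      calc _ ≤ (a^3 + 3*(u1^2*r2 + a^2*r3)) *
            ((r1+r2+r3)^3 + 3*(u1*(r1-δ*s)^2 + u2*(r1+r2+r3)^2)) :=
            mul_le_mul_of_nonneg_left h1 hA
        _ = ((u1+u2)^3 + 3*(u1^2*(r2+a^2*s))) * ((r1+r2+r3)^3 + 3*(u1*(r1-δ*s)^2 + u2*(r1+r2+r3)^2)) := by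
            rw [← h2, ← ha]; ring
        _ ≤ _ := h4
  · set s := -(r2/a^2) with hs
    have hs0 : s ≤ 0 := by
      rw [hs]
      have : 0 ≤ r2/a^2 := by positivity
      linarith
    have hr2s : r2 + a^2*s = 0 := by rw [hs]; field_simp; ring
    have h1 := line s (mul_nonneg_of_nonpos_of_nonpos hs0 hsl)
    have h2 := eA s
    have h3 := eb s
    have hr1s : 0 ≤ r1 - δ*s := by nlinarith
    have hr3s : 0 ≤ r3 - u1^2*s := by nlinarith [sq_nonneg u1]
    have h4 := psi3 (v := r1-δ*s) (a := a) (w := r3-u1^2*s) hr1s hapos.le hr3s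
    rw [hr2s] at h1 h2 h3
    have e1 : (r1-δ*s) + a + (r3-u1^2*s) = a + (r1+r2+r3) := by rw [← h3]; ring
    have e2 : (r1-δ*s) + (r3-u1^2*s) = r1+r2+r3 := by rw [← h3]; ring
    rw [e1, e2] at h4
    calc _ ≤ (a^3 + 3*(u1^2*r2 + a^2*r3)) *
          ((r1+r2+r3)^3 + 3*(u1*(r1-δ*s)^2 + u2*((r1-δ*s)+0)^2)) :=
          mul_le_mul_of_nonneg_left h1 hA
      _ = (a^3 + 3*a^2*(r3-u1^2*s)) * ((r1+r2+r3)^3 + 3*a*(r1-δ*s)^2) := by
          rw [← h2]
          have : u1 = a - u2 := by rw [ha]; ring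
          have e5 : u1*(r1-δ*s)^2 + u2*((r1-δ*s)+0)^2 = a*(r1-δ*s)^2 := by rw [ha]; ring
          rw [e5]
          ring
      _ ≤ _ := h4

end Pool.Agent.V1162.T3
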