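import Mathlib
import Pool.Agent.V1162.T3.Cont2

set_option autoImplicit false

namespace Pool.Agent.V1162.T3

open Finset

noncomputable def FA {b : ℕ} (a : ℝ) (L : Fin b → ℝ) : ℝ := a^3 + 3 * ∑ v, (L v)^2
noncomputable def FB {b : ℕ} (a : ℝ) (L : Fin b → ℝ) : ℝ :=
  (b:ℝ)^3 + 3 * ∑ v, ∑ w, (a - max (L v) (L w))

lemma FA_nonneg {b : ℕ} {a : ℝ} (ha : 0 ≤ a) (L : Fin b → ℝ) : 0 ≤ FA a L := by
  unfold FA
  have : 0 ≤ ∑ v, (L v)^2 := Finset.sum_nonneg (fun i _ => sq_nonneg _)
  positivity

/-- three levels -/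
lemma three_levels {b : ℕ} {a c : ℝ} (hc : 0 < c) (hca : c < a) (L : Fin b → ℝ)
    (hL : ∀ v, L v = 0 ∨ L v = c ∨ L v = a) :
    FA a L * FB a L ≤ gam * (a + b)^6 := by
  classical
  set p : Fin b → ℝ := fun v => if L v = 0 then 1 else 0 with hp
  set q : Fin b → ℝ := fun v => if L v = c then 1 else 0 with hq
  set t : Fin b → ℝ := fun v => if L v = a then 1 else 0 with ht
  have ha : 0 < a := hc.trans hca
  have hpqt : ∀ v, p v + q v + t v = 1 := by
    intro v
    rcases hL v with h | h | h
    · simp [hp, hq, ht, h, hc.ne, ha.ne]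
    · simp [hp, hq, ht, h, hc.ne', hca.ne]
    · simp [hp, hq, ht, h, ha.ne', hca.ne']
  have hsq : ∀ v, (L v)^2 = c^2 * q v + a^2 * t v := by
    intro v
    rcases hL v with h | h | h
    · simp [hq, ht, h, hc.ne, ha.ne]
    · simp [hq, ht, h, hca.ne]
    · simp [hq, ht, h, hca.ne']
  have hmax : ∀ v w, a - max (L v) (L w) = (a-c)*((p v + q v)*(p w + q w)) + c*(p v * p w) := by
    intro v w
    rcases hL v with h | h | h <;> rcases hL w with h' | h' | h'
    · simp [hp, hq, h, h', hc.ne]
    · simp [hp, hq, h, h', hc.ne, hc.ne', hc.le]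
    · simp [hp, hq, h, h', hc.ne, ha.ne', hca.ne', ha.le]
    · simp [hp, hq, h, h', hc.ne, hc.ne', hc.le]
    · simp [hp, hq, h, h', hc.ne']
    · simp [hp, hq, h, h', hc.ne', ha.ne', hca.ne', hca.le]
    · simp [hp, hq, h, h', hc.ne, ha.ne', hca.ne', ha.le]
    · simp [hp, hq, h, h', hc.ne', ha.ne', hca.ne', hca.le]
    · simp [hp, hq, h, h', ha.ne', hca.ne']
  set r1 := ∑ v, p v with hr1
  set r2 := ∑ v, q v with hr2
  set r3 := ∑ v, t v with hr3
  have hr1n : 0 ≤ r1 := Finset.sum_nonneg (fun i _ => by simp only [hp]; split_ifs <;> norm_num)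
  have hr2n : 0 ≤ r2 := Finset.sum_nonneg (fun i _ => by simp only [hq]; split_ifs <;> norm_num)
  have hr3n : 0 ≤ r3 := Finset.sum_nonneg (fun i _ => by simp only [ht]; split_ifs <;> norm_num)
  have hb : r1 + r2 + r3 = b := by
    rw [hr1, hr2, hr3, ← Finset.sum_add_distrib, ← Finset.sum_add_distrib]
    rw [Finset.sum_congr rfl (fun v _ => hpqt v)]
    simp
  have hA : FA a L = (c + (a-c))^3 + 3*(c^2*r2 + (c+(a-c))^2*r3) := by
    unfold FA
    rw [Finset.sum_congr rfl (fun v _ => hsq v), Finset.sum_add_distrib, ← Finset.mul_sum,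
      ← Finset.mul_sum]
    ring
  have hB : FB a L = (r1+r2+r3)^3 + 3*(c*r1^2 + (a-c)*(r1+r2)^2) := by
    unfold FB
    have e1 : ∑ v, ∑ w, (a - max (L v) (L w)) = (a-c)*(r1+r2)^2 + c*r1^2 := by
      calc ∑ v, ∑ w, (a - max (L v) (L w))
          = ∑ v, ∑ w, ((a-c)*((p v + q v)*(p w + q w)) + c*(p v * p w)) := by
            apply Finset.sum_congr rfl; intro v _
            apply Finset.sum_congr rfl; intro w _
            exact hmax v w
        _ = ∑ v, ((a-c)*((p v + q v)*(r1+r2)) + c*(p v * r1)) := by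
            apply Finset.sum_congr rfl; intro v _
            rw [Finset.sum_add_distrib, ← Finset.mul_sum, ← Finset.mul_sum, ← Finset.mul_sum,
              ← Finset.mul_sum, Finset.sum_add_distrib]
        _ = _ := by
            rw [Finset.sum_add_distrib, ← Finset.mul_sum, ← Finset.mul_sum, ← Finset.sum_mul,
              ← Finset.sum_mul, Finset.sum_add_distrib]
            ring
    rw [e1, hb]
    ring
  have h := phi5 (r1 := r1) (u1 := c) (r2 := r2) (u2 := a - c) (r3 := r3) hr1n hc.le hr2n
    (by linarith) hr3n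
  rw [hA, hB]
  refine h.trans (le_of_eq ?_)
  rw [hb]
  ring

theorem level_bound {b : ℕ} {a : ℝ} (ha : 0 ≤ a) (L : Fin b → ℝ)
    (hL : ∀ v, 0 ≤ L v ∧ L v ≤ a) :
    FA a L * FB a L ≤ gam * (a + b)^6 := by
  classical
  rcases eq_or_lt_of_le ha with h0 | hapos
  · have hL0 : ∀ v, L v = 0 := fun v => le_antisymm (h0 ▸ (hL v).2) (hL v).1
    have : FA a L = 0 := by
      unfold FA
      rw [← h0]
      simp [hL0]
    rw [this, zero_mul]
    have := gam_nonneg
    positivity
  rcases Nat.eq_zero_or_pos b with hb0 | hbpos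
  · subst hb0
    have : FB a L = 0 := by unfold FB; simp
    rw [this, mul_zero]
    have := gam_nonneg
    positivity
  set S : Set (Fin b → ℝ) := Set.pi Set.univ (fun _ => Set.Icc 0 a) with hS
  have hSc : IsCompact S := isCompact_univ_pi (fun _ => isCompact_Icc)
  have hmemS : ∀ M : Fin b → ℝ, M ∈ S ↔ ∀ v, 0 ≤ M v ∧ M v ≤ a := by
    intro M
    rw [hS, Set.mem_univ_pi]
    rfl
  have hcont : ContinuousOn (fun M : Fin b → ℝ => FA a M * FB a M) S := by
    apply Continuous.continuousOn
    unfold FA FB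
    fun_prop
  obtain ⟨M, hMS, hM⟩ := hSc.exists_isMaxOn ⟨L, (hmemS L).2 hL⟩ hcont
  have hmaxM : ∀ K : Fin b → ℝ, (∀ v, 0 ≤ K v ∧ K v ≤ a) → FA a K * FB a K ≤ FA a M * FB a M := by
    intro K hK
    exact hM ((hmemS K).2 hK)
  have hMb := (hmemS M).1 hMS
  refine (hmaxM L hL).trans ?_
  -- B positive
  have hBpos : 0 < FB a M := by
    unfold FB
    have h1 : 0 ≤ ∑ v, ∑ w, (a - max (M v) (M w)) :=
      Finset.sum_nonneg (fun v _ => Finset.sum_nonneg (fun w _ => by
        have := max_le (hMb v).2 (hMb w).2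
        linarith))
    have h2 : (0:ℝ) < (b:ℝ)^3 := by positivity
    linarith
  -- no two interior levels
  have key : ∀ v1 v2 : Fin b, 0 < M v1 → M v1 < M v2 → M v2 < a → False := by
    intro v1 v2 h1 h12 h2
    set c := M v1 with hc
    set c' := M v2 with hc'
    set D1 : ℝ := ∑ v, ∑ w, (if max (M v) (M w) = c then (1:ℝ) else 0) with hD1
    set D2 : ℝ := ∑ v, ∑ w, (if max (M v) (M w) = c' then (1:ℝ) else 0) with hD2
    have hD2pos : 0 < D2 := by
      have hnn : ∀ v w : Fin b, (0:ℝ) ≤ (if max (M v) (M w) = c' then (1:ℝ) else 0) := by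
        intro v w; split_ifs <;> norm_num
      calc (0:ℝ) < (if max (M v2) (M v2) = c' then (1:ℝ) else 0) := by simp [hc']
        _ ≤ ∑ w, (if max (M v2) (M w) = c' then (1:ℝ) else 0) :=
          Finset.single_le_sum (f := fun w => (if max (M v2) (M w) = c' then (1:ℝ) else 0))
            (fun w _ => hnn v2 w) (Finset.mem_univ v2)
        _ ≤ D2 := Finset.single_le_sum
            (f := fun v => ∑ w, (if max (M v) (M w) = c' then (1:ℝ) else 0))
            (fun v _ => Finset.sum_nonneg (fun w _ => hnn v w)) (Finset.mem_univ v2)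
    set dd : ℝ → ℝ := fun x => if x = c then D2 else if x = c' then -D1 else 0 with hdd
    have hddc : dd c = D2 := by simp [hdd]
    set K : ℝ → Fin b → ℝ := fun s v => M v + s * dd (M v) with hK
    -- eventually good
    have ev1 : ∀ v, ∀ᶠ s in nhds (0:ℝ), 0 ≤ K s v ∧ K s v ≤ a := by
      intro v
      by_cases hz : dd (M v) = 0
      · filter_upwards with s
        simp only [hK, hz]
        simpa using hMb v
      · have hint : 0 < M v ∧ M v < a := by
          simp only [hdd] at hz
          split_ifs at hz with e1 e2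
          · rw [e1]; exact ⟨h1, h12.trans h2⟩
          · rw [e2]; exact ⟨h1.trans h12, h2⟩
          · exact absurd rfl hz
        have hcs : Continuous (fun s : ℝ => K s v) := by simp only [hK]; fun_prop
        have ht : Filter.Tendsto (fun s : ℝ => K s v) (nhds 0) (nhds (M v)) := by
          have := hcs.tendsto 0
          simpa [hK] using this
        filter_upwards [ht.eventually (lt_mem_nhds hint.1), ht.eventually (gt_mem_nhds hint.2)]
          with s g1 g2
        exact ⟨g1.le, g2.le⟩
    have ev2 : ∀ v w, ∀ᶠ s in nhds (0:ℝ),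
        max (K s v) (K s w) = max (M v) (M w) + s * dd (max (M v) (M w)) := by
      intro v w
      have hcs : ∀ v, Filter.Tendsto (fun s : ℝ => K s v) (nhds 0) (nhds (M v)) := by
        intro v
        have hcs : Continuous (fun s : ℝ => K s v) := by simp only [hK]; fun_prop
        have := hcs.tendsto 0
        simpa [hK] using this
      rcases lt_trichotomy (M v) (M w) with h | h | h
      · filter_upwards [(hcs v).eventually_lt (hcs w) h] with s hs
        rw [max_eq_right hs.le, max_eq_right h.le]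
      · filter_upwards with s
        simp only [hK]
        rw [h, max_self, max_self]
      · filter_upwards [(hcs w).eventually_lt (hcs v) h] with s hs
        rw [max_eq_left hs.le, max_eq_left h.le]
    have ev : ∀ᶠ s in nhds (0:ℝ), (∀ v, 0 ≤ K s v ∧ K s v ≤ a) ∧
        (∀ v w, max (K s v) (K s w) = max (M v) (M w) + s * dd (max (M v) (M w))) := by
      apply Filter.Eventually.and
      · exact Filter.eventually_all.2 ev1
      · exact Filter.eventually_all.2 (fun v => Filter.eventually_all.2 (fun w => ev2 v w))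
    have evn : ∀ᶠ s in nhds (0:ℝ), (∀ v, 0 ≤ K (-s) v ∧ K (-s) v ≤ a) ∧
        (∀ v w, max (K (-s) v) (K (-s) w) = max (M v) (M w) + (-s) * dd (max (M v) (M w))) := by
      have : Filter.Tendsto (fun s : ℝ => -s) (nhds 0) (nhds 0) := by
        have := (continuous_neg (G := ℝ)).tendsto 0
        simpa using this
      exact this.eventually ev
    obtain ⟨s, ⟨hs1, hs2⟩, hsne⟩ : ∃ s : ℝ, (((∀ v, 0 ≤ K s v ∧ K s v ≤ a) ∧
        (∀ v w, max (K s v) (K s w) = max (M v) (M w) + s * dd (max (M v) (M w)))) ∧
        ((∀ v, 0 ≤ K (-s) v ∧ K (-s) v ≤ a) ∧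
        (∀ v w, max (K (-s) v) (K (-s) w) = max (M v) (M w) + (-s) * dd (max (M v) (M w)))))
        ∧ s ≠ 0 := by
      have h3 := (ev.and evn)
      have h4 : ∀ᶠ s in nhdsWithin (0:ℝ) {0}ᶜ, s ≠ 0 := by
        filter_upwards [self_mem_nhdsWithin] with s hs
        simpa using hs
      have h5 := (h3.filter_mono (nhdsWithin_le_nhds (s := {0}ᶜ))).and h4
      exact h5.exists
    -- B unchanged
    have hBK : ∀ s : ℝ, (∀ v w, max (K s v) (K s w) = max (M v) (M w) + s * dd (max (M v) (M w))) →
        FB a (K s) = FB a M := by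
      intro s hs
      unfold FB
      have e1 : ∑ v, ∑ w, dd (max (M v) (M w)) = 0 := by
        have e2 : ∀ v w, dd (max (M v) (M w)) =
            D2 * (if max (M v) (M w) = c then (1:ℝ) else 0)
            - D1 * (if max (M v) (M w) = c' then (1:ℝ) else 0) := by
          intro v w
          simp only [hdd]
          by_cases g1 : max (M v) (M w) = c
          · have g2 : ¬ (c = c') := h12.ne
            rw [g1]
            simp [g2]
          · by_cases g2 : max (M v) (M w) = c'
            · have g3 : ¬ (c' = c) := h12.ne'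
              rw [g2]
              simp [g3]
            · simp [g1, g2]
        calc ∑ v, ∑ w, dd (max (M v) (M w))
            = ∑ v, ∑ w, (D2 * (if max (M v) (M w) = c then (1:ℝ) else 0)
            - D1 * (if max (M v) (M w) = c' then (1:ℝ) else 0)) := by
              apply Finset.sum_congr rfl; intro v _
              apply Finset.sum_congr rfl; intro w _
              exact e2 v w
          _ = D2 * D1 - D1 * D2 := by
              simp only [Finset.sum_sub_distrib, ← Finset.mul_sum]
              rw [hD1, hD2]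
          _ = 0 := by ring
      have e3 : ∑ v, ∑ w, (a - max (K s v) (K s w)) =
          ∑ v, ∑ w, (a - max (M v) (M w)) - s * ∑ v, ∑ w, dd (max (M v) (M w)) := by
        simp only [Finset.mul_sum]
        rw [← Finset.sum_sub_distrib]
        apply Finset.sum_congr rfl; intro v _
        rw [← Finset.sum_sub_distrib]
        apply Finset.sum_congr rfl; intro w _
        rw [hs v w]
        ring
      rw [e3, e1]
      ring
    have hAK : ∀ s : ℝ, FA a (K s) = FA a M + 3*(2*s*(∑ v, M v * dd (M v))
        + s^2 * ∑ v, (dd (M v))^2) := by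
      intro s
      unfold FA
      have e1 : ∑ v, (K s v)^2 = ∑ v, (M v)^2 + 2*s*(∑ v, M v * dd (M v))
          + s^2 * ∑ v, (dd (M v))^2 := by
        simp only [Finset.mul_sum]
        rw [← Finset.sum_add_distrib, ← Finset.sum_add_distrib]
        apply Finset.sum_congr rfl; intro v _
        simp only [hK]
        ring
      rw [e1]
      ring
    have g1 := hmaxM (K s) hs1.1
    have g2 := hmaxM (K (-s)) hs2.1
    rw [hBK s hs1.2] at g1
    rw [hBK (-s) hs2.2] at g2
    have g3 := le_of_mul_le_mul_right g1 hBpos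
    have g4 := le_of_mul_le_mul_right g2 hBpos
    rw [hAK] at g3 g4
    have g5 : 0 < ∑ v, (dd (M v))^2 := by
      calc (0:ℝ) < (dd (M v1))^2 := by
            rw [← hc, hddc]; positivity
        _ ≤ _ := Finset.single_le_sum (f := fun v => (dd (M v))^2)
            (fun v _ => sq_nonneg _) (Finset.mem_univ v1)
    have g6 : 0 < s^2 * ∑ v, (dd (M v))^2 := by positivity
    nlinarith
  by_cases hint : ∃ v1, 0 < M v1 ∧ M v1 < a
  · obtain ⟨v1, h1, h2⟩ := hint
    apply three_levels h1 h2
    intro v
    by_contra hcon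
    push Not at hcon
    obtain ⟨n1, n2, n3⟩ := hcon
    have p1 : 0 < M v := lt_of_le_of_ne (hMb v).1 (Ne.symm n1)
    have p2 : M v < a := lt_of_le_of_ne (hMb v).2 n3
    rcases lt_or_gt_of_ne n2 with h | h
    · exact key v v1 p1 h h2
    · exact key v1 v h1 h p2
  · push Not at hint
    apply three_levels (c := a/2) (by linarith) (by linarith)
    intro v
    rcases eq_or_lt_of_le (hMb v).1 with h | h
    · exact Or.inl h.symm
    · exact Or.inr (Or.inr (le_antisymm (hMb v).2 (hint v h)))

end Pool.Agent.V1162.T3
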