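import Mathlib
import Pool.Agent.V1162.T3.Level

set_option autoImplicit false

namespace Pool.Agent.V1162.T3

open Finset

lemma six_sum_choose (m : ℕ) : 6 * ∑ k ∈ range (m+1), ((k.choose 2 : ℕ) : ℝ) = (m:ℝ)^3 - m := by
  induction m with
  | zero => simp
  | succ m ih =>
    rw [Finset.sum_range_succ, mul_add, ih, Nat.cast_choose_two]
    push_cast
    ring

lemma scale_ineq {A B U V N g : ℝ} (hN : 1 ≤ N) (hA : 0 ≤ A - U) (hB : 0 ≤ B - V)
    (hU : A ≤ N^2 * U) (hV : B ≤ N^2 * V) (hAB : A * B ≤ g * N^6) :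
    (A - U) * (B - V) ≤ g * (N^3 - N)^2 := by
  have hN2 : 0 < N^2 := by positivity
  have h1 : N^2 * (A - U) ≤ (N^2 - 1) * A := by nlinarith
  have h2 : N^2 * (B - V) ≤ (N^2 - 1) * B := by nlinarith
  have h3 : N^4 * ((A - U) * (B - V)) ≤ (N^2-1)^2 * (A * B) := by
    calc N^4 * ((A - U) * (B - V)) = (N^2 * (A - U)) * (N^2 * (B - V)) := by ring
      _ ≤ ((N^2 - 1) * A) * ((N^2 - 1) * B) := by
        apply mul_le_mul h1 h2 (by positivity)
        exact le_trans (by positivity) h1
      _ = _ := by ring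
  have h4 : (N^2-1)^2 * (A * B) ≤ (N^2-1)^2 * (g * N^6) := by gcongr
  have h5 : N^4 * ((A - U) * (B - V)) ≤ N^4 * (g * (N^3-N)^2) := by
    calc _ ≤ _ := h3
      _ ≤ _ := h4
      _ = _ := by ring
  exact le_of_mul_le_mul_left h5 (by positivity)

lemma sum_sq_count {b : ℕ} (a : ℕ) (L : Fin b → ℕ) (hL : ∀ v, L v ≤ a) :
    ∑ j ∈ range a, (((univ.filter (fun v => L v ≤ j)).card : ℕ) : ℝ)^2
      = ∑ v, ∑ w, ((a:ℝ) - max (L v : ℝ) (L w : ℝ)) := by
  have h1 : ∀ j, (((univ.filter (fun v => L v ≤ j)).card : ℕ) : ℝ)^2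
      = ∑ v, ∑ w, (if max (L v) (L w) ≤ j then (1:ℝ) else 0) := by
    intro j
    rw [Finset.card_filter]
    push_cast
    rw [sq, Finset.sum_mul_sum]
    apply Finset.sum_congr rfl; intro v _
    apply Finset.sum_congr rfl; intro w _
    by_cases g1 : L v ≤ j <;> by_cases g2 : L w ≤ j <;> simp [g1, g2]
  rw [Finset.sum_congr rfl (fun j _ => h1 j), Finset.sum_comm]
  apply Finset.sum_congr rfl; intro v _
  rw [Finset.sum_comm]
  apply Finset.sum_congr rfl; intro w _
  set m := max (L v) (L w) with hm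
  have hma : m ≤ a := max_le (hL v) (hL w)
  have hmr : max (L v : ℝ) (L w : ℝ) = (m : ℝ) := by rw [hm]; push_cast; rfl
  rw [hmr, ← Finset.sum_filter, Finset.sum_const, nsmul_eq_mul, mul_one]
  have : (range a).filter (fun j => m ≤ j) = Ico m a := by
    ext j; simp [and_comm]
  rw [this, Nat.card_Ico]
  push_cast [Nat.cast_sub hma]
  ring

lemma sum_count {b : ℕ} (a : ℕ) (L : Fin b → ℕ) (hL : ∀ v, L v ≤ a) :
    ∑ j ∈ range a, (((univ.filter (fun v => L v ≤ j)).card : ℕ) : ℝ)
      = ∑ v, ((a:ℝ) - (L v : ℝ)) := by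
  have h1 : ∀ j, (((univ.filter (fun v => L v ≤ j)).card : ℕ) : ℝ)
      = ∑ v, (if L v ≤ j then (1:ℝ) else 0) := by
    intro j
    rw [Finset.card_filter]
    push_cast
    rfl
  rw [Finset.sum_congr rfl (fun j _ => h1 j), Finset.sum_comm]
  apply Finset.sum_congr rfl; intro v _
  rw [← Finset.sum_filter, Finset.sum_const, nsmul_eq_mul, mul_one]
  have : (range a).filter (fun j => L v ≤ j) = Ico (L v) a := by
    ext j; simp [and_comm]
  rw [this, Nat.card_Ico]
  push_cast [Nat.cast_sub (hL v)]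
  ring

/-- the discrete inequality -/
theorem disc {a b : ℕ} (L : Fin b → ℕ) (hL : ∀ v, L v ≤ a) :
    (6 * (∑ k ∈ range (a+1), ((k.choose 2 : ℕ) : ℝ) + ∑ v, (((L v).choose 2 : ℕ) : ℝ))) *
    (6 * (∑ k ∈ range (b+1), ((k.choose 2 : ℕ) : ℝ)
      + ∑ j ∈ range a, ((((univ.filter (fun v => L v ≤ j)).card).choose 2 : ℕ) : ℝ)))
    ≤ gam * (((a+b:ℕ):ℝ)^3 - ((a+b:ℕ):ℝ))^2 := by
  set A := FA (a:ℝ) (fun v => (L v : ℝ)) with hA
  set B := FB (a:ℝ) (fun v => (L v : ℝ)) with hB
  set U : ℝ := a + 3 * ∑ v, (L v : ℝ) with hU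
  set V : ℝ := b + 3 * ∑ j ∈ range a, (((univ.filter (fun v => L v ≤ j)).card : ℕ) : ℝ) with hV
  have e1 : 6 * (∑ k ∈ range (a+1), ((k.choose 2 : ℕ) : ℝ) + ∑ v, (((L v).choose 2 : ℕ) : ℝ))
      = A - U := by
    rw [mul_add, six_sum_choose, hA, hU]
    unfold FA
    have : ∑ v, (((L v).choose 2 : ℕ) : ℝ) = (∑ v, (L v:ℝ)^2 - ∑ v, (L v:ℝ))/2 := by
      rw [← Finset.sum_sub_distrib, Finset.sum_div]
      apply Finset.sum_congr rfl; intro v _
      rw [Nat.cast_choose_two]; ring
    rw [this]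
    ring
  have e2 : 6 * (∑ k ∈ range (b+1), ((k.choose 2 : ℕ) : ℝ)
      + ∑ j ∈ range a, ((((univ.filter (fun v => L v ≤ j)).card).choose 2 : ℕ) : ℝ)) = B - V := by
    rw [mul_add, six_sum_choose, hB, hV]
    unfold FB
    rw [← sum_sq_count a L hL]
    have : ∑ j ∈ range a, ((((univ.filter (fun v => L v ≤ j)).card).choose 2 : ℕ) : ℝ)
        = (∑ j ∈ range a, (((univ.filter (fun v => L v ≤ j)).card : ℕ) : ℝ)^2
          - ∑ j ∈ range a, (((univ.filter (fun v => L v ≤ j)).card : ℕ) : ℝ))/2 := by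
      rw [← Finset.sum_sub_distrib, Finset.sum_div]
      apply Finset.sum_congr rfl; intro v _
      rw [Nat.cast_choose_two]; ring
    rw [this]
    ring
  rw [e1, e2]
  rcases Nat.eq_zero_or_pos (a+b) with h0 | hpos
  · have ha0 : a = 0 := by omega
    have hb0 : b = 0 := by omega
    subst ha0; subst hb0
    simp [hA, hB, hU, hV, FA, FB]
  have hN : (1:ℝ) ≤ ((a+b:ℕ):ℝ) := by exact_mod_cast hpos
  have haN : (a:ℝ) ≤ ((a+b:ℕ):ℝ) := by push_cast; linarith [Nat.cast_nonneg (α := ℝ) b]
  have hbN : (b:ℝ) ≤ ((a+b:ℕ):ℝ) := by push_cast; linarith [Nat.cast_nonneg (α := ℝ) a]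
  set N : ℝ := ((a+b:ℕ):ℝ) with hNdef
  have hN0 : 0 ≤ N := by linarith
  have hNN : N ≤ N^2 := by nlinarith
  have cube : ∀ x : ℝ, 0 ≤ x → x ≤ N → x^3 ≤ N^2 * x := by
    intro x hx hxN
    have : x^2 ≤ N^2 := by gcongr
    nlinarith
  have sqq : ∀ x : ℝ, 0 ≤ x → x ≤ N → x^2 ≤ N^2 * x := by
    intro x hx hxN
    have : x * x ≤ N^2 * x := by
      apply mul_le_mul_of_nonneg_right _ hx
      linarith
    nlinarith
  apply scale_ineq hN
  · rw [← e1]; positivity
  · rw [← e2]; positivity
  · rw [hA, hU]; unfold FA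
    have h1 := cube a (Nat.cast_nonneg _) haN
    have h2 : ∑ v, ((L v:ℝ))^2 ≤ N^2 * ∑ v, (L v:ℝ) := by
      rw [Finset.mul_sum]
      apply Finset.sum_le_sum
      intro v _
      apply sqq _ (Nat.cast_nonneg _)
      exact le_trans (by exact_mod_cast hL v) haN
    nlinarith
  · rw [hB, hV]; unfold FB
    rw [← sum_sq_count a L hL]
    have h1 := cube b (Nat.cast_nonneg _) hbN
    have h2 : ∑ j ∈ range a, (((univ.filter (fun v => L v ≤ j)).card : ℕ) : ℝ)^2
        ≤ N^2 * ∑ j ∈ range a, (((univ.filter (fun v => L v ≤ j)).card : ℕ) : ℝ) := by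
      rw [Finset.mul_sum]
      apply Finset.sum_le_sum
      intro j _
      apply sqq _ (Nat.cast_nonneg _)
      refine le_trans ?_ hbN
      have : (univ.filter (fun v => L v ≤ j)).card ≤ b := by
        calc _ ≤ (univ : Finset (Fin b)).card := Finset.card_filter_le _ _
          _ = b := by simp
      exact_mod_cast this
    nlinarith
  · have := level_bound (a := (a:ℝ)) (Nat.cast_nonneg _) (fun v => (L v : ℝ))
      (fun v => ⟨Nat.cast_nonneg _, by exact_mod_cast hL v⟩)
    rw [hNdef]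
    push_cast
    exact this

/-- staircase inequality -/
theorem staircase (n : ℕ) (hn : 1 ≤ n) (c : ℕ → ℕ) (hc1 : ∀ k < n, c k ≤ k)
    (hc2 : ∀ k k', k < k' → k' < n → min (c k') k ≤ c k) :
    36 * ((∑ k ∈ range n, (((c k).choose 2 : ℕ) : ℝ)) *
      (∑ j ∈ range n, (((((range n).filter (fun k => j < k ∧ c k ≤ j)).card).choose 2 : ℕ) : ℝ)))
    ≤ gam * (((n-1:ℕ):ℝ)^3 - ((n-1:ℕ):ℝ))^2 := by
  -- a = last k with c k = k
  obtain ⟨a, han, hca, hamax⟩ : ∃ a, a < n ∧ c a = a ∧ ∀ k, a < k → k < n → c k < k := by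
    have hne : ((range n).filter (fun k => c k = k)).Nonempty := by
      refine ⟨0, ?_⟩
      simp only [mem_filter, mem_range]
      exact ⟨hn, Nat.le_zero.mp (hc1 0 hn)⟩
    refine ⟨((range n).filter (fun k => c k = k)).max' hne, ?_, ?_, ?_⟩
    · have := Finset.max'_mem _ hne
      simp only [mem_filter, mem_range] at this
      exact this.1
    · have := Finset.max'_mem _ hne
      simp only [mem_filter, mem_range] at this
      exact this.2
    · intro k hk hkn
      refine lt_of_le_of_ne (hc1 k hkn) ?_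
      intro he
      have : k ≤ ((range n).filter (fun k => c k = k)).max' hne :=
        Finset.le_max' _ _ (by simp [hkn, he])
      omega
  have hlow : ∀ k, k ≤ a → c k = k := by
    intro k hk
    rcases Nat.lt_or_eq_of_le hk with h | h
    · have h1 := hc2 k a h han
      have h2 := hc1 k (by omega)
      rw [hca] at h1
      have : min a k = k := by omega
      omega
    · rw [h]; exact hca
  have hhigh : ∀ k, a < k → k < n → c k ≤ a := by
    intro k hk hkn
    rcases Nat.lt_or_eq_of_le (Nat.succ_le_of_lt hk) with h | h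
    · have h1 := hc2 (a+1) k h hkn
      have h2 := hamax (a+1) (by omega) (by omega)
      by_contra hcon
      push Not at hcon
      have : min (c k) (a+1) = a+1 := by omega
      omega
    · have := hamax k hk hkn
      omega
  obtain ⟨b, hb⟩ : ∃ b, n = (a+1) + b := ⟨n - (a+1), by omega⟩
  set L : Fin b → ℕ := fun v => c (a+1+v) with hLdef
  have hL : ∀ v, L v ≤ a := by
    intro v
    exact hhigh _ (by omega) (by have := v.2; omega)
  have h1 : ∑ k ∈ range n, (((c k).choose 2 : ℕ) : ℝ)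
      = ∑ k ∈ range (a+1), ((k.choose 2 : ℕ) : ℝ) + ∑ v, (((L v).choose 2 : ℕ) : ℝ) := by
    rw [hb, Finset.sum_range_add]
    congr 1
    · apply Finset.sum_congr rfl
      intro k hk
      rw [hlow k (by simp at hk; omega)]
    · rw [Finset.sum_range (fun x => (((c (a+1+x)).choose 2 : ℕ) : ℝ))]
  have h2 : ∑ j ∈ range n, (((((range n).filter (fun k => j < k ∧ c k ≤ j)).card).choose 2 : ℕ) : ℝ)
      ≤ ∑ k ∈ range (b+1), ((k.choose 2 : ℕ) : ℝ)
      + ∑ j ∈ range a, ((((univ.filter (fun v => L v ≤ j)).card).choose 2 : ℕ) : ℝ) := by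
    have hn2 : n = a + (b+1) := by omega
    have e : ∑ j ∈ range n, (((((range n).filter (fun k => j < k ∧ c k ≤ j)).card).choose 2 : ℕ) : ℝ)
      = ∑ j ∈ range a, (((((range n).filter (fun k => j < k ∧ c k ≤ j)).card).choose 2 : ℕ) : ℝ)
      + ∑ i ∈ range (b+1), (((((range n).filter (fun k => a+i < k ∧ c k ≤ a+i)).card).choose 2 : ℕ) : ℝ) := by
      conv_lhs => rw [hn2]
      rw [Finset.sum_range_add]
      rw [← hn2]
    rw [e, add_comm]
    apply add_le_add
    · rw [← Finset.sum_range_reflect (fun k => ((k.choose 2 : ℕ) : ℝ)) (b+1)]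
      apply Finset.sum_le_sum
      intro i hi
      have hi' : i < b+1 := by simpa using hi
      have : ((range n).filter (fun k => a+i < k ∧ c k ≤ a+i)).card ≤ b + 1 - 1 - i := by
        calc ((range n).filter (fun k => a+i < k ∧ c k ≤ a+i)).card
            ≤ (Ioo (a+i) n).card := by
              apply Finset.card_le_card
              intro k hk
              simp only [mem_filter, mem_range] at hk
              simp only [mem_Ioo]
              omega
          _ = b + 1 - 1 - i := by rw [Nat.card_Ioo]; omega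
      exact_mod_cast Nat.choose_le_choose 2 this
    · apply Finset.sum_le_sum
      intro j hj
      have hj' : j < a := by simpa using hj
      have : ((range n).filter (fun k => j < k ∧ c k ≤ j)).card
          ≤ (univ.filter (fun v => L v ≤ j)).card := by
        have hsub : (range n).filter (fun k => j < k ∧ c k ≤ j)
            ⊆ (univ.filter (fun v : Fin b => L v ≤ j)).image (fun v : Fin b => a + 1 + (v:ℕ)) := by
          intro k hk
          simp only [mem_filter, mem_range] at hk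
          obtain ⟨k1, k2, k3⟩ := hk
          have hka : a < k := by
            by_contra hcon
            push Not at hcon
            have := hlow k hcon
            omega
          simp only [mem_image, mem_filter, mem_univ, true_and]
          refine ⟨⟨k - (a+1), by omega⟩, ?_, by simp only; omega⟩
          simp only [hLdef]
          have : a + 1 + (k - (a+1)) = k := by omega
          rw [this]
          exact k3
        exact (Finset.card_le_card hsub).trans Finset.card_image_le
      exact_mod_cast Nat.choose_le_choose 2 this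
  have h3 := disc (a := a) (b := b) L hL
  have hnab : n - 1 = a + b := by omega
  rw [hnab]
  refine le_trans ?_ h3
  rw [h1]
  have h4 : 0 ≤ ∑ k ∈ range (a+1), ((k.choose 2 : ℕ) : ℝ) + ∑ v, (((L v).choose 2 : ℕ) : ℝ) := by
    positivity
  nlinarith [mul_le_mul_of_nonneg_left h2 h4]

end Pool.Agent.V1162.T3
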