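import Mathlib

set_option autoImplicit false

namespace Pool.Agent.V1162.T3

open Finset

variable {n : ℕ}

/-- swap the points `i` and `j` of a set -/
def sw (i j : Fin n) (s : Finset (Fin n)) : Finset (Fin n) := s.map (Equiv.swap i j).toEmbedding

lemma mem_sw {i j x : Fin n} {s : Finset (Fin n)} : x ∈ sw i j s ↔ Equiv.swap i j x ∈ s := by
  unfold sw
  rw [Finset.mem_map_equiv, Equiv.symm_swap]

lemma sw_comm (i j : Fin n) (s : Finset (Fin n)) : sw i j s = sw j i s := by
  unfold sw; rw [Equiv.swap_comm]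

lemma sw_sw (i j : Fin n) (s : Finset (Fin n)) : sw i j (sw i j s) = s := by
  ext x; simp [mem_sw]

lemma card_sw (i j : Fin n) (s : Finset (Fin n)) : (sw i j s).card = s.card := by
  simp [sw]

lemma sw_inter (i j : Fin n) (s t : Finset (Fin n)) : sw i j s ∩ sw i j t = sw i j (s ∩ t) := by
  ext x; simp [mem_sw]

lemma card_sw_inter (i j : Fin n) (s t : Finset (Fin n)) :
    (sw i j s ∩ t).card = (s ∩ sw i j t).card := by
  have : sw i j s ∩ t = sw i j (s ∩ sw i j t) := by
    rw [← sw_inter, sw_sw]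
  rw [this, card_sw]

/-- `s` moves when shifting `j` to `i` -/
def Mv (i j : Fin n) (A : Finset (Finset (Fin n))) (s : Finset (Fin n)) : Prop :=
  j ∈ s ∧ i ∉ s ∧ sw i j s ∉ A

open Classical in
noncomputable def g (i j : Fin n) (A : Finset (Finset (Fin n))) (s : Finset (Fin n)) :
    Finset (Fin n) := if Mv i j A s then sw i j s else s

open Classical in
noncomputable def Sh (i j : Fin n) (A : Finset (Finset (Fin n))) : Finset (Finset (Fin n)) :=
  A.image (g i j A)

lemma g_injOn (i j : Fin n) (A : Finset (Finset (Fin n))) :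
    Set.InjOn (g i j A) (A : Set (Finset (Fin n))) := by
  classical
  intro s hs t ht h
  unfold g at h
  split_ifs at h with h1 h2 h2
  · have := congrArg (sw i j) h
    rwa [sw_sw, sw_sw] at this
  · exact absurd (h ▸ ht) h1.2.2
  · exact absurd (h.symm ▸ hs) h2.2.2
  · exact h

lemma card_Sh (i j : Fin n) (A : Finset (Finset (Fin n))) : (Sh i j A).card = A.card := by
  classical
  unfold Sh
  exact Finset.card_image_of_injOn (g_injOn i j A)

lemma mem_Sh {i j : Fin n} {A : Finset (Finset (Fin n))} {x : Finset (Fin n)}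
    (hx : x ∈ Sh i j A) :
    (x ∈ A ∧ (j ∈ x → i ∉ x → sw i j x ∈ A)) ∨
    (∃ s ∈ A, j ∈ s ∧ i ∉ s ∧ x = sw i j s) := by
  classical
  unfold Sh at hx
  rw [mem_image] at hx
  obtain ⟨s, hs, rfl⟩ := hx
  by_cases h : Mv i j A s
  · right
    exact ⟨s, hs, h.1, h.2.1, by simp [g, h]⟩
  · left
    have : g i j A s = s := by simp [g, h]
    rw [this]
    refine ⟨hs, ?_⟩
    intro h1 h2
    by_contra h3
    exact h ⟨h1, h2, h3⟩

lemma card_of_mem_Sh {i j : Fin n} {A : Finset (Finset (Fin n))} {r : ℕ}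
    (hA : ∀ s ∈ A, s.card = r) : ∀ s ∈ Sh i j A, s.card = r := by
  intro x hx
  rcases mem_Sh hx with ⟨h, _⟩ | ⟨s, hs, _, _, rfl⟩
  · exact hA x h
  · rw [card_sw]; exact hA s hs

/-- the key lemma: cross-intersections stay small -/
lemma cross_Sh {i j : Fin n} {A B : Finset (Finset (Fin n))} {t : ℕ}
    (h : ∀ a ∈ A, ∀ b ∈ B, (a ∩ b).card ≤ t) :
    ∀ a ∈ Sh i j A, ∀ b ∈ Sh j i B, (a ∩ b).card ≤ t := by
  intro x hx y hy
  rcases mem_Sh hx with ⟨hxA, hx2⟩ | ⟨a, ha, hja, hia, rfl⟩ <;>
  rcases mem_Sh hy with ⟨hyB, hy2⟩ | ⟨b, hb, hib, hjb, rfl⟩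
  · exact h x hxA y hyB
  · -- x stays, y moved: y = sw j i b, i ∈ b, j ∉ b
    rw [sw_comm, inter_comm, card_sw_inter, inter_comm]
    by_cases hjx : j ∈ x
    · by_cases hix : i ∈ x
      · have : sw i j x = x := by
          ext z
          rw [mem_sw]
          by_cases h1 : z = i
          · subst h1; simp [hjx, hix]
          · by_cases h2 : z = j
            · subst h2; simp [hjx, hix]
            · rw [Equiv.swap_apply_of_ne_of_ne h1 h2]
        rw [this]
        exact h x hxA b hb
      · exact h _ (hx2 hjx hix) b hb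
    · -- j ∉ x
      have hsub : (sw i j x ∩ b).card ≤ (x ∩ b).card := by
        apply Finset.card_le_card
        intro z hz
        rw [mem_inter, mem_sw] at hz
        rw [mem_inter]
        refine ⟨?_, hz.2⟩
        by_cases h1 : z = i
        · subst h1
          rw [Equiv.swap_apply_left] at hz
          exact absurd hz.1 hjx
        · by_cases h2 : z = j
          · subst h2; exact absurd hz.2 hjb
          · rw [Equiv.swap_apply_of_ne_of_ne h1 h2] at hz
            exact hz.1
      exact hsub.trans (h x hxA b hb)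
  · -- x moved, y stays
    rw [card_sw_inter]
    by_cases hiy : i ∈ y
    · by_cases hjy : j ∈ y
      · have : sw i j y = y := by
          ext z
          rw [mem_sw]
          by_cases h1 : z = i
          · subst h1; simp [hjy, hiy]
          · by_cases h2 : z = j
            · subst h2; simp [hjy, hiy]
            · rw [Equiv.swap_apply_of_ne_of_ne h1 h2]
        rw [this]
        exact h a ha y hyB
      · rw [sw_comm]
        exact h a ha _ (hy2 hiy hjy)
    · have hsub : (a ∩ sw i j y).card ≤ (a ∩ y).card := by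
        apply Finset.card_le_card
        intro z hz
        rw [mem_inter, mem_sw] at hz
        rw [mem_inter]
        refine ⟨hz.1, ?_⟩
        by_cases h1 : z = i
        · subst h1; exact absurd hz.1 hia
        · by_cases h2 : z = j
          · subst h2
            rw [Equiv.swap_apply_right] at hz
            exact absurd hz.2 hiy
          · rw [Equiv.swap_apply_of_ne_of_ne h1 h2] at hz
            exact hz.2
      exact hsub.trans (h a ha y hyB)
  · rw [sw_comm j i, sw_inter, card_sw]
    exact h a ha b hb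

/-- weight of a set and of a family -/
def wt (s : Finset (Fin n)) : ℕ := ∑ x ∈ s, (x : ℕ)

def mu (A : Finset (Finset (Fin n))) : ℕ := ∑ s ∈ A, wt s

lemma wt_sw_lt {i j : Fin n} (hij : i < j) {s : Finset (Fin n)} (hj : j ∈ s) (hi : i ∉ s) :
    wt (sw i j s) < wt s := by
  unfold wt sw
  rw [Finset.sum_map]
  apply Finset.sum_lt_sum
  · intro x hx
    by_cases h1 : x = i
    · subst h1; exact absurd hx hi
    · by_cases h2 : x = j
      · subst h2
        simp only [Equiv.coe_toEmbedding, Equiv.swap_apply_right]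
        exact hij.le
      · simp only [Equiv.coe_toEmbedding]
        rw [Equiv.swap_apply_of_ne_of_ne h1 h2]
  · refine ⟨j, hj, ?_⟩
    simp only [Equiv.coe_toEmbedding, Equiv.swap_apply_right]
    exact hij

lemma mu_Sh_lt {i j : Fin n} (hij : i < j) {A : Finset (Finset (Fin n))} {s : Finset (Fin n)}
    (hs : s ∈ A) (hmv : Mv i j A s) : mu (Sh i j A) < mu A := by
  classical
  unfold mu Sh
  rw [Finset.sum_image (g_injOn i j A)]
  apply Finset.sum_lt_sum
  · intro x _
    unfold g
    split_ifs with h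
    · exact (wt_sw_lt hij h.1 h.2.1).le
    · exact le_rfl
  · refine ⟨s, hs, ?_⟩
    unfold g
    rw [if_pos hmv]
    exact wt_sw_lt hij hmv.1 hmv.2.1

/-- reduction to a compressed first family -/
theorem exists_shifted (A B : Finset (Finset (Fin n))) (r t : ℕ)
    (hA : ∀ a ∈ A, a.card = r) (hB : ∀ b ∈ B, b.card = r)
    (hAB : ∀ a ∈ A, ∀ b ∈ B, (a ∩ b).card ≤ t) :
    ∃ A' B' : Finset (Finset (Fin n)), A'.card = A.card ∧ B'.card = B.card ∧
      (∀ a ∈ A', a.card = r) ∧ (∀ b ∈ B', b.card = r) ∧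
      (∀ a ∈ A', ∀ b ∈ B', (a ∩ b).card ≤ t) ∧
      (∀ i j : Fin n, i < j → ∀ s ∈ A', j ∈ s → i ∉ s → sw i j s ∈ A') := by
  classical
  set P : Finset (Finset (Finset (Fin n)) × Finset (Finset (Fin n))) :=
    univ.filter (fun p => p.1.card = A.card ∧ p.2.card = B.card ∧
      (∀ a ∈ p.1, a.card = r) ∧ (∀ b ∈ p.2, b.card = r) ∧
      (∀ a ∈ p.1, ∀ b ∈ p.2, (a ∩ b).card ≤ t)) with hP
  have hne : P.Nonempty := ⟨(A, B), by simp only [hP, mem_filter, mem_univ, true_and]; exact ⟨hA, hB, hAB⟩⟩
  obtain ⟨p, hp, hmin⟩ := P.exists_min_image (fun p => mu p.1) hne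
  obtain ⟨A', B'⟩ := p
  simp only [hP, mem_filter, mem_univ, true_and] at hp
  obtain ⟨h1, h2, h3, h4, h5⟩ := hp
  refine ⟨A', B', h1, h2, h3, h4, h5, ?_⟩
  intro i j hij s hs hj hi
  by_contra hcon
  have hmv : Mv i j A' s := ⟨hj, hi, hcon⟩
  have hlt := mu_Sh_lt hij hs hmv
  have := hmin (Sh i j A', Sh j i B') (by
    simp only [hP, mem_filter, mem_univ, true_and]
    refine ⟨?_, ?_, card_of_mem_Sh h3, card_of_mem_Sh h4, cross_Sh h5⟩
    · rw [card_Sh, h1]
    · rw [card_Sh, h2])
  simp only at this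
  omega

end Pool.Agent.V1162.T3
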