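import Mathlib
import Pool.Agent.V1162.T3.Disc
import Pool.Agent.V1162.T3.Shift

set_option autoImplicit false

namespace Pool.Agent.V1162.T3

open Finset

variable {n : ℕ}

def Ad (A : Finset (Finset (Fin n))) (j k : Fin n) : Prop := ∃ s ∈ A, j ∈ s ∧ k ∈ s

open Classical in
noncomputable def Nb (A : Finset (Finset (Fin n))) (k : Fin n) : Finset (Fin n) :=
  univ.filter (fun j => j < k ∧ Ad A j k)

lemma ad_down {A : Finset (Finset (Fin n))}
    (hA : ∀ i j : Fin n, i < j → ∀ s ∈ A, j ∈ s → i ∉ s → sw i j s ∈ A)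
    {j' j k : Fin n} (h1 : j' < j) (h2 : j < k) (h : Ad A j k) : Ad A j' k := by
  obtain ⟨s, hs, hj, hk⟩ := h
  by_cases hj' : j' ∈ s
  · exact ⟨s, hs, hj', hk⟩
  · refine ⟨sw j' j s, hA j' j h1 s hs hj hj', ?_, ?_⟩
    · rw [mem_sw, Equiv.swap_apply_left]; exact hj
    · rw [mem_sw, Equiv.swap_apply_of_ne_of_ne (h1.trans h2).ne' h2.ne']; exact hk

lemma ad_left {A : Finset (Finset (Fin n))}
    (hA : ∀ i j : Fin n, i < j → ∀ s ∈ A, j ∈ s → i ∉ s → sw i j s ∈ A)
    {j k k' : Fin n} (h1 : j < k) (h2 : k < k') (h : Ad A j k') : Ad A j k := by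
  obtain ⟨s, hs, hj, hk'⟩ := h
  by_cases hk : k ∈ s
  · exact ⟨s, hs, hj, hk⟩
  · refine ⟨sw k k' s, hA k k' h2 s hs hk' hk, ?_, ?_⟩
    · rw [mem_sw, Equiv.swap_apply_of_ne_of_ne h1.ne (h1.trans h2).ne]; exact hj
    · rw [mem_sw, Equiv.swap_apply_left]; exact hk'

lemma ad_iff {A : Finset (Finset (Fin n))}
    (hA : ∀ i j : Fin n, i < j → ∀ s ∈ A, j ∈ s → i ∉ s → sw i j s ∈ A)
    {j k : Fin n} (hjk : j < k) : Ad A j k ↔ (j : ℕ) < (Nb A k).card := by
  classical
  constructor
  · intro h
    have hsub : Iic j ⊆ Nb A k := by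
      intro x hx
      rw [mem_Iic] at hx
      simp only [Nb, mem_filter, mem_univ, true_and]
      refine ⟨lt_of_le_of_lt hx hjk, ?_⟩
      rcases eq_or_lt_of_le hx with e | l
      · rw [e]; exact h
      · exact ad_down hA l hjk h
    have := Finset.card_le_card hsub
    rw [Fin.card_Iic] at this
    omega
  · intro h
    by_contra hcon
    have hsub : Nb A k ⊆ Iio j := by
      intro x hx
      simp only [Nb, mem_filter, mem_univ, true_and] at hx
      rw [mem_Iio]
      by_contra hx2
      push Not at hx2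
      apply hcon
      rcases eq_or_lt_of_le hx2 with e | l
      · rw [e]; exact hx.2
      · exact ad_down hA l hx.1 hx.2
    have := Finset.card_le_card hsub
    rw [Fin.card_Iio] at this
    omega

lemma card_A_le {A : Finset (Finset (Fin n))} (h3 : ∀ s ∈ A, s.card = 3) :
    A.card ≤ ∑ k : Fin n, ((Nb A k).card).choose 2 := by
  classical
  have hsub : A ⊆ (univ : Finset (Fin n)).biUnion
      (fun k => (powersetCard 2 (Nb A k)).image (fun t => insert k t)) := by
    intro s hs
    have hne : s.Nonempty := by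
      rw [← Finset.card_pos, h3 s hs]; norm_num
    set k := s.max' hne with hk
    have hks : k ∈ s := s.max'_mem hne
    rw [mem_biUnion]
    refine ⟨k, mem_univ _, ?_⟩
    rw [mem_image]
    refine ⟨s.erase k, ?_, Finset.insert_erase hks⟩
    rw [mem_powersetCard]
    refine ⟨?_, by rw [Finset.card_erase_of_mem hks, h3 s hs]⟩
    intro x hx
    rw [mem_erase] at hx
    simp only [Nb, mem_filter, mem_univ, true_and]
    exact ⟨lt_of_le_of_ne (s.le_max' x hx.2) hx.1, s, hs, hx.2, hks⟩
  calc A.card ≤ _ := Finset.card_le_card hsub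
    _ ≤ ∑ k : Fin n, ((powersetCard 2 (Nb A k)).image (fun t => insert k t)).card :=
        Finset.card_biUnion_le
    _ ≤ ∑ k : Fin n, (powersetCard 2 (Nb A k)).card :=
        Finset.sum_le_sum (fun k _ => Finset.card_image_le)
    _ = _ := by simp [Finset.card_powersetCard]

open Classical in
lemma card_B_le {A B : Finset (Finset (Fin n))} (h3 : ∀ s ∈ B, s.card = 3)
    (hAB : ∀ a ∈ A, ∀ b ∈ B, (a ∩ b).card ≤ 1) :
    B.card ≤ ∑ j : Fin n, ((univ.filter (fun k => j < k ∧ ¬ Ad A j k)).card).choose 2 := by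
  have hsub : B ⊆ (univ : Finset (Fin n)).biUnion
      (fun j => (powersetCard 2 (univ.filter (fun k => j < k ∧ ¬ Ad A j k))).image
        (fun t => insert j t)) := by
    intro s hs
    have hne : s.Nonempty := by
      rw [← Finset.card_pos, h3 s hs]; norm_num
    set j := s.min' hne with hj
    have hjs : j ∈ s := s.min'_mem hne
    rw [mem_biUnion]
    refine ⟨j, mem_univ _, ?_⟩
    rw [mem_image]
    refine ⟨s.erase j, ?_, Finset.insert_erase hjs⟩
    rw [mem_powersetCard]
    refine ⟨?_, by rw [Finset.card_erase_of_mem hjs, h3 s hs]⟩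
    intro x hx
    rw [mem_erase] at hx
    simp only [mem_filter, mem_univ, true_and]
    refine ⟨lt_of_le_of_ne (s.min'_le x hx.2) (Ne.symm hx.1), ?_⟩
    rintro ⟨a, ha, hja, hxa⟩
    have h1 := hAB a ha s hs
    have h2 : ({j, x} : Finset (Fin n)) ⊆ a ∩ s := by
      intro z hz
      simp only [mem_insert, mem_singleton] at hz
      rcases hz with rfl | rfl
      · exact mem_inter.2 ⟨hja, hjs⟩
      · exact mem_inter.2 ⟨hxa, hx.2⟩
    have h4 := Finset.card_le_card h2
    rw [Finset.card_pair (Ne.symm hx.1)] at h4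
    omega
  calc B.card ≤ _ := Finset.card_le_card hsub
    _ ≤ ∑ j : Fin n, ((powersetCard 2 (univ.filter (fun k => j < k ∧ ¬ Ad A j k))).image
        (fun t => insert j t)).card := Finset.card_biUnion_le
    _ ≤ ∑ j : Fin n, (powersetCard 2 (univ.filter (fun k => j < k ∧ ¬ Ad A j k))).card :=
        Finset.sum_le_sum (fun k _ => Finset.card_image_le)
    _ = _ := by simp [Finset.card_powersetCard]

lemma six_choose_three (m : ℕ) : 6 * (((m+1).choose 3 : ℕ) : ℝ) = (m:ℝ)^3 - m := by
  induction m with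
  | zero => simp
  | succ m ih =>
    rw [Nat.choose_succ_succ (m+1) 2]
    push_cast
    rw [mul_add, ih, Nat.cast_choose_two]
    push_cast
    ring

theorem main (n : ℕ) (A B : Finset (Finset (Fin n)))
    (hA : ∀ a ∈ A, a.card = 3) (hB : ∀ b ∈ B, b.card = 3)
    (hAB : ∀ a ∈ A, ∀ b ∈ B, (a ∩ b).card ≤ 1) :
    ((A.card * B.card : ℕ) : ℝ) ≤ gam * ((n.choose 3 : ℕ) : ℝ) ^ 2 := by
  classical
  rcases Nat.eq_zero_or_pos n with h0 | hn
  · subst h0
    have : A = ∅ := by
      rw [Finset.eq_empty_iff_forall_notMem]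
      intro s hs
      have h1 := hA s hs
      have : s = ∅ := by
        ext x; exact x.elim0
      rw [this] at h1
      simp at h1
    rw [this]
    simp
  obtain ⟨A', B', h1, h2, h3, h4, h5, hsh⟩ := exists_shifted A B 3 1 hA hB hAB
  rw [← h1, ← h2]
  set c : ℕ → ℕ := fun k => if h : k < n then (Nb A' ⟨k, h⟩).card else 0 with hc
  have hcF : ∀ k : Fin n, c (k : ℕ) = (Nb A' k).card := by
    intro k
    simp [hc]
  have hc1 : ∀ k < n, c k ≤ k := by
    intro k hk
    have : c k = (Nb A' ⟨k, hk⟩).card := by simp [hc, hk]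
    rw [this]
    calc (Nb A' ⟨k, hk⟩).card ≤ (Iio (⟨k, hk⟩ : Fin n)).card := by
          apply Finset.card_le_card
          intro x hx
          simp only [Nb, mem_filter, mem_univ, true_and] at hx
          exact mem_Iio.2 hx.1
      _ = k := by rw [Fin.card_Iio]
  have hc2 : ∀ k k', k < k' → k' < n → min (c k') k ≤ c k := by
    intro k k' hkk' hk'n
    by_contra hcon
    push Not at hcon
    have hlt := lt_min_iff.1 hcon
    have hkn : k < n := by omega
    have hjn : c k < n := by omega
    set j : Fin n := ⟨c k, hjn⟩ with hj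
    set K : Fin n := ⟨k, hkn⟩ with hK
    set K' : Fin n := ⟨k', hk'n⟩ with hK'
    have g1 : Ad A' j K' := by
      rw [ad_iff hsh (show j < K' from by rw [Fin.lt_def]; simp only [hj, hK']; omega)]
      rw [← hcF]
      exact hlt.1
    have g2 : Ad A' j K := ad_left hsh (show j < K from hlt.2) (show K < K' from hkk') g1
    rw [ad_iff hsh (show j < K from hlt.2), ← hcF] at g2
    simp only [hj, hK] at g2
    omega
  have hst := staircase n hn c hc1 hc2
  have hAle : (A'.card : ℝ) ≤ ∑ k ∈ range n, (((c k).choose 2 : ℕ) : ℝ) := by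
    have := card_A_le h3
    rw [Finset.sum_range (fun k => (((c k).choose 2 : ℕ) : ℝ))]
    have e : ∑ k : Fin n, (((c (k:ℕ)).choose 2 : ℕ) : ℝ)
        = ((∑ k : Fin n, ((Nb A' k).card).choose 2 : ℕ) : ℝ) := by
      push_cast
      apply Finset.sum_congr rfl
      intro k _
      rw [hcF k]
    rw [e]
    exact_mod_cast this
  have hBle : (B'.card : ℝ) ≤ ∑ j ∈ range n,
      (((((range n).filter (fun k => j < k ∧ c k ≤ j)).card).choose 2 : ℕ) : ℝ) := by
    have := card_B_le h4 h5
    rw [Finset.sum_range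
      (fun j => (((((range n).filter (fun k => j < k ∧ c k ≤ j)).card).choose 2 : ℕ) : ℝ))]
    have e : ∑ j : Fin n, ((univ.filter (fun k => j < k ∧ ¬ Ad A' j k)).card).choose 2
        ≤ ∑ j : Fin n, (((range n).filter (fun k => (j:ℕ) < k ∧ c k ≤ j)).card).choose 2 := by
      apply Finset.sum_le_sum
      intro j _
      apply Nat.choose_le_choose
      apply Finset.card_le_card_of_injOn (fun k : Fin n => (k : ℕ))
      · intro k hk
        simp only [coe_filter, mem_univ, true_and, Set.mem_ofPred_eq] at hk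
        simp only [coe_filter, mem_range, Set.mem_ofPred_eq]
        refine ⟨k.2, hk.1, ?_⟩
        rw [ad_iff hsh hk.1] at hk
        rw [hcF]
        omega
      · intro x _ y _ hxy
        exact Fin.ext hxy
    exact_mod_cast this.trans e
  obtain ⟨N, rfl⟩ : ∃ N, n = N + 1 := ⟨n - 1, by omega⟩
  have h6 := six_choose_three N
  have e1 : ((N + 1 - 1 : ℕ) : ℝ) = N := by simp
  rw [e1, ← h6] at hst
  push_cast
  have h7 : (A'.card : ℝ) * B'.card ≤ (∑ k ∈ range (N+1), (((c k).choose 2 : ℕ) : ℝ)) *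
      (∑ j ∈ range (N+1), (((((range (N+1)).filter (fun k => j < k ∧ c k ≤ j)).card).choose 2 : ℕ) : ℝ)) := by
    apply mul_le_mul hAle hBle (by positivity)
    exact le_trans (by positivity) hAle
  nlinarith

end Pool.Agent.V1162.T3
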